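import Mathlib
import Pool.Agent.H46.VT.Red
import Pool.Agent.H46.VT.Tools

/-!
# MP_36d07e_lc, module RG: computability of the predicates of the construction
-/

namespace Pool.Agent.H87.VT

open _root_.VT
open Pool.Agent.H46.VT
open Nat.Partrec (Code)
open Nat.Partrec.Code Encodable Denumerable

variable {α β : Type} [Primcodable α] [Primcodable β]

/-! ### coding functions -/

theorem co_mX {f : β → ℕ} (hf : Computable f) : Computable (fun b => mX (f b)) := co_unpair1 hf

theorem co_eX {f : β → ℕ} (hf : Computable f) : Computable (fun b => eX (f b)) :=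
  co_unpair1 (co_unpair2 hf)

theorem co_wX {f : β → ℕ} (hf : Computable f) : Computable (fun b => wX (f b)) :=
  (Computable.ofNat (List ℕ)).comp (co_unpair2 (co_unpair2 hf))

theorem co_LX {f : β → ℕ} (hf : Computable f) : Computable (fun b => LX (f b)) :=
  co_add (co_mX hf) (co_eX hf)

theorem co_gX {f k : β → ℕ} (hf : Computable f) (hk : Computable k) :
    Computable (fun b => gX (f b) (k b)) := co_getD 0 (co_wX hf) hk

theorem co_rl {k : β → ℕ} (hk : Computable k) : Computable (fun b => rl (k b)) :=
  co_unpair1 (co_unpair1 hk)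

theorem co_rb {k : β → ℕ} (hk : Computable k) : Computable (fun b => rb (k b)) :=
  co_ofNatCode (co_unpair1 (co_unpair2 (co_unpair1 hk)))

theorem co_rs {k : β → ℕ} (hk : Computable k) : Computable (fun b => rs (k b)) :=
  co_ofNatCode (co_unpair1 (co_unpair2 (co_unpair2 (co_unpair1 hk))))

theorem co_rs' {k : β → ℕ} (hk : Computable k) : Computable (fun b => rs' (k b)) :=
  co_ofNatCode (co_unpair1 (co_unpair2 (co_unpair2 (co_unpair2 (co_unpair1 hk)))))

theorem co_rt {k : β → ℕ} (hk : Computable k) : Computable (fun b => rt (k b)) :=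
  co_ofNatCode (co_unpair2 (co_unpair2 (co_unpair2 (co_unpair2 (co_unpair1 hk)))))

theorem co_lm {l : β → ℕ} (hl : Computable l) : Computable (fun b => lm (l b)) :=
  co_unpair1 (co_sub hl (Computable.const 1))

theorem co_li {l : β → ℕ} (hl : Computable l) : Computable (fun b => li (l b)) :=
  co_unpair2 (co_sub hl (Computable.const 1))

theorem co_cur {x i k : β → ℕ} (hx : Computable x) (hi : Computable i) (hk : Computable k) :
    Computable (fun b => cur (x b) (i b) (k b)) := by
  unfold cur
  exact co_ite (cp_lt hk (co_mX hx)) (Computable.const 0)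
    (co_add (co_pair (co_mX hx) hi) (Computable.const 1)) _

theorem co_ptr {x k : β → ℕ} (hx : Computable x) (hk : Computable k) :
    Computable (fun b => ptr (x b) (k b)) := by
  unfold ptr
  exact co_ite (cp_lt hk (co_mX hx)) (co_add hk (Computable.const 1))
    (co_add hk (Computable.const 3)) _

theorem cp_eqC {f g : β → Code} (hf : Computable f) (hg : Computable g) :
    ComputablePred (fun b => f b = g b) := by
  classical
  exact cp_eq hf hg

/-! ### the predicates -/

section

variable {F : α → ℕ → ℕ → ℕ × ℕ}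
  (hF : Computable (fun q : α × ℕ × ℕ => F q.1 q.2.1 q.2.2))

include hF

theorem co_F {a : β → α} {s x : β → ℕ} (ha : Computable a) (hs : Computable s)
    (hx : Computable x) : Computable (fun b => F (a b) (s b) (x b)) :=
  hF.comp (ha.pair (hs.pair hx))

theorem co_F1 {a : β → α} {s x : β → ℕ} (ha : Computable a) (hs : Computable s)
    (hx : Computable x) : Computable (fun b => (F (a b) (s b) (x b)).1) :=
  Computable.fst.comp (co_F hF ha hs hx)

theorem co_F2 {a : β → α} {s x : β → ℕ} (ha : Computable a) (hs : Computable s)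
    (hx : Computable x) : Computable (fun b => (F (a b) (s b) (x b)).2) :=
  Computable.snd.comp (co_F hF ha hs hx)

theorem cp_Uin {a : β → α} {l s x : β → ℕ} (ha : Computable a) (hl : Computable l)
    (hs : Computable s) (hx : Computable x) :
    ComputablePred (fun b => Uin (F (a b)) (l b) (s b) (x b)) := by
  unfold Uin
  have h0 := cp_eq hl (Computable.const (0 : ℕ))
  exact cp_or h0 (cp_and (cp_not h0) (cp_and (cp_eq (co_mX hx) (co_lm hl))
    (cp_or (cp_le (co_li hl) (co_F1 hF ha hs hx))
      (cp_eq (co_F2 hF ha hs hx) (Computable.const 0)))))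

theorem cp_Cin {a : β → α} {l s x : β → ℕ} (ha : Computable a) (hl : Computable l)
    (hs : Computable s) (hx : Computable x) :
    ComputablePred (fun b => Cin (F (a b)) (l b) (s b) (x b)) := by
  unfold Cin
  have h0 := cp_eq hl (Computable.const (0 : ℕ))
  have h2 := co_F2 hF ha hs hx
  have h1 := co_F1 hF ha hs hx
  exact cp_or (cp_and h0 (cp_le h2 (co_add (co_mX hx) (Computable.const 1))))
    (cp_and (cp_not h0) (cp_and (cp_eq (co_mX hx) (co_lm hl))
      (cp_or (cp_lt (co_li hl) h1) (cp_or (cp_and (cp_eq h1 (co_li hl))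
        (cp_le h2 (co_add (co_LX hx) (Computable.const 3)))) (cp_eq h2 (Computable.const 0))))))

theorem cp_Ain {a : β → α} {l s x : β → ℕ} (ha : Computable a) (hl : Computable l)
    (hs : Computable s) (hx : Computable x) :
    ComputablePred (fun b => Ain (F (a b)) (l b) (s b) (x b)) := by
  unfold Ain
  have h0 := cp_eq hl (Computable.const (0 : ℕ))
  have h2 := co_F2 hF ha hs hx
  have h1 := co_F1 hF ha hs hx
  exact cp_or (cp_and h0 (cp_eq h2 (Computable.const 0)))
    (cp_and (cp_not h0) (cp_and (cp_eq (co_mX hx) (co_lm hl))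
      (cp_or (cp_lt (co_li hl) h1) (cp_eq h2 (Computable.const 0)))))

theorem cp_act {a : β → α} {s x k : β → ℕ} (ha : Computable a)
    (hs : Computable s) (hx : Computable x) (hk : Computable k) :
    ComputablePred (fun b => act (F (a b)) (s b) (x b) (k b)) := by
  unfold act
  exact cp_and (cp_eq (co_rl hk) (co_cur hx (co_F1 hF ha hs hx) hk))
    (cp_and (cp_eq (co_gX hx hk) (Computable.const 0)) (cp_wst (co_rs hk) hs hx))

theorem cp_AnnAt {a : β → α} {s x k : β → ℕ} (ha : Computable a)
    (hs : Computable s) (hx : Computable x) (hk : Computable k) :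
    ComputablePred (fun b => AnnAt (F (a b)) (s b) (x b) (k b)) := by
  unfold AnnAt
  refine cp_and (cp_lt hk (co_LX hx)) (cp_and (cp_eq (co_F2 hF ha hs hx) (co_ptr hx hk))
    (cp_and (cp_act hF ha hs hx hk) ?_))
  refine cp_forall_lt (p := fun b k' => ¬ (act (F (a b)) (s b) (x b) k' ∧ rl k' = rl (k b) ∧
    rb k' = rb (k b))) ?_ hk
  have f : Computable (fun q : β × ℕ => q.1) := Computable.fst
  have g : Computable (fun q : β × ℕ => q.2) := Computable.snd
  exact cp_not (cp_and (cp_act hF (ha.comp f) (hs.comp f) (hx.comp f) g)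
    (cp_and (cp_eq (co_rl g) (co_rl (hk.comp f))) (cp_eqC (co_rb g) (co_rb (hk.comp f)))))

theorem cp_Dst {a : β → α} {l s x : β → ℕ} {c : β → Code} (ha : Computable a)
    (hl : Computable l) (hc : Computable c) (hs : Computable s) (hx : Computable x) :
    ComputablePred (fun b => Dst (F (a b)) (l b) (c b) (s b) (x b)) := by
  unfold Dst
  refine cp_exists_lt (p := fun b t => ∃ k < LX (x b), AnnAt (F (a b)) t (x b) k ∧
    rl k = l b ∧ rb k = c b) ?_ hs
  have f : Computable (fun q : β × ℕ => q.1) := Computable.fst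
  refine cp_exists_lt (p := fun (q : β × ℕ) k => AnnAt (F (a q.1)) q.2 (x q.1) k ∧
    rl k = l q.1 ∧ rb k = c q.1) ?_ (co_LX (hx.comp f))
  have f1 : Computable (fun q : (β × ℕ) × ℕ => q.1.1) := Computable.fst.comp Computable.fst
  have f2 : Computable (fun q : (β × ℕ) × ℕ => q.1.2) := Computable.snd.comp Computable.fst
  have f3 : Computable (fun q : (β × ℕ) × ℕ => q.2) := Computable.snd
  exact cp_and (cp_AnnAt hF (ha.comp f1) f2 (hx.comp f1) f3)
    (cp_and (cp_eq (co_rl f3) (hl.comp f1)) (cp_eqC (co_rb f3) (hc.comp f1)))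

theorem cp_phi {a : β → α} {k y t : β → ℕ} (ha : Computable a)
    (hk : Computable k) (hy : Computable y) (ht : Computable t) :
    ComputablePred (fun b => phi (F (a b)) (k b) (y b) (t b)) := by
  unfold phi
  have hC := cp_Cin hF ha (co_rl hk) ht hy
  have hA := cp_Ain hF ha (co_rl hk) ht hy
  have hU := cp_Uin hF ha (co_rl hk) ht hy
  have hD := cp_Dst hF ha (co_rl hk) (co_rb hk) ht hy
  have hs := cp_wst (co_rs hk) ht hy
  have hs' := cp_wst (co_rs' hk) ht hy
  have hb := cp_wst (co_rb hk) ht hy
  have htt := cp_wst (co_rt hk) ht hy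
  exact cp_and (cp_imp hC (cp_iff hs (cp_not hs'))) (cp_and (cp_imp (cp_or hs hs') hC)
    (cp_and (cp_imp hs (cp_imp (cp_not hA) (cp_iff hb hD))) (cp_imp hU (cp_imp (cp_not hC) htt))))

theorem cp_Big {a : β → α} {k s c : β → ℕ} (ha : Computable a)
    (hk : Computable k) (hs : Computable s) (hc : Computable c) :
    ComputablePred (fun b => Big (F (a b)) (k b) (s b) (c b)) := by
  unfold Big
  refine cp_exists_le (p := fun b t => c b < t ∧ ∀ y ≤ c b, phi (F (a b)) (k b) y t) ?_ hs
  have f : Computable (fun q : β × ℕ => q.1) := Computable.fst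
  have g : Computable (fun q : β × ℕ => q.2) := Computable.snd
  refine cp_and (cp_lt (hc.comp f) g) ?_
  refine cp_forall_le (p := fun (q : β × ℕ) y => phi (F (a q.1)) (k q.1) y q.2) ?_ (hc.comp f)
  have f1 : Computable (fun q : (β × ℕ) × ℕ => q.1.1) := Computable.fst.comp Computable.fst
  have f2 : Computable (fun q : (β × ℕ) × ℕ => q.1.2) := Computable.snd.comp Computable.fst
  have f3 : Computable (fun q : (β × ℕ) × ℕ => q.2) := Computable.snd
  exact cp_phi hF (ha.comp f1) (hk.comp f1) f3 f2

end

theorem pf_RG : TARGET_RG := by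
  intro α _ F hF
  have a0 : Computable (fun q : α × ℕ × ℕ × ℕ => q.1) := Computable.fst
  have a1 : Computable (fun q : α × ℕ × ℕ × ℕ => q.2.1) := Computable.fst.comp Computable.snd
  have a2 : Computable (fun q : α × ℕ × ℕ × ℕ => q.2.2.1) :=
    Computable.fst.comp (Computable.snd.comp Computable.snd)
  have a3 : Computable (fun q : α × ℕ × ℕ × ℕ => q.2.2.2) :=
    Computable.snd.comp (Computable.snd.comp Computable.snd)
  refine ⟨cp_Uin hF a0 a1 a2 a3, cp_Cin hF a0 a1 a2 a3, cp_Ain hF a0 a1 a2 a3,
    cp_AnnAt hF a0 a1 a2 a3, ?_, cp_Big hF a0 a1 a2 a3⟩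
  have b0 : Computable (fun q : α × (ℕ × Code) × ℕ × ℕ => q.1) := Computable.fst
  have b1 : Computable (fun q : α × (ℕ × Code) × ℕ × ℕ => q.2.1.1) :=
    Computable.fst.comp (Computable.fst.comp Computable.snd)
  have b2 : Computable (fun q : α × (ℕ × Code) × ℕ × ℕ => q.2.1.2) :=
    Computable.snd.comp (Computable.fst.comp Computable.snd)
  have b3 : Computable (fun q : α × (ℕ × Code) × ℕ × ℕ => q.2.2.1) :=
    Computable.fst.comp (Computable.snd.comp Computable.snd)
  have b4 : Computable (fun q : α × (ℕ × Code) × ℕ × ℕ => q.2.2.2) :=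
    Computable.snd.comp (Computable.snd.comp Computable.snd)
  exact cp_Dst hF b0 b1 b2 b3 b4

end Pool.Agent.H87.VT
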