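import Mathlib
import Pool.Agent.H46.VT.Red
import Pool.Agent.H46.VT.Tools
import Pool.Agent.H87.VT.RG

/-!
# MP_36d07e_lc, module NT: the constructed set is not `n`-tardy
-/

namespace Pool.Agent.H87.VT

open _root_.VT
open Pool.Agent.H46.VT
open Nat.Partrec (Code)
open Nat.Partrec.Code Encodable Denumerable

theorem rr_le {x c : ℕ} (h : c ≤ mX x + 1) : rr x c ≤ mX x := by
  unfold rr
  split_ifs with h1 h2
  · exact h1
  · exact le_rfl
  · omega

/-- the measure of progress -/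
def mu (ph : ℕ → ℕ → ℕ × ℕ) (x s : ℕ) : ℕ :=
  (ph s x).1 * (LX x + 5) + (LX x + 4 - (ph s x).2)

theorem mu_lt {ph : ℕ → ℕ → ℕ × ℕ} (hRA : TARGET_RA) (hR : Run ph) {x s t : ℕ} (hst : s ≤ t)
    (hne : ph t x ≠ ph s x) : mu ph x s < mu ph x t := by
  obtain ⟨h1, -, -, -, -, -, -, h8, -⟩ := hRA ph hR
  obtain ⟨h3, h4⟩ := h8 s t x hst
  have h5 := h1 s x
  have h6 := h1 t x
  unfold mu
  rcases Nat.lt_or_eq_of_le h3 with h | h
  · have h7 : ((ph s x).1 + 1) * (LX x + 5) ≤ (ph t x).1 * (LX x + 5) :=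
      Nat.mul_le_mul_right _ h
    have h8 : ((ph s x).1 + 1) * (LX x + 5) = (ph s x).1 * (LX x + 5) + (LX x + 5) := by ring
    omega
  · have h7 := h4 h
    have h9 : (ph t x).2 ≠ (ph s x).2 := fun h' => hne (Prod.ext h.symm h')
    rw [h]
    omega

theorem zero_of_AA {ph : ℕ → ℕ → ℕ × ℕ} {x s : ℕ} (h : Ain ph 0 s x) : (ph s x).2 = 0 := by
  rcases h with h | h
  · exact h.2
  · exact absurd rfl h.1

theorem AA_of_zero {ph : ℕ → ℕ → ℕ × ℕ} {x s : ℕ} (h : (ph s x).2 = 0) : x ∈ AA ph 0 :=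
  ⟨s, Or.inl ⟨rfl, h⟩⟩

theorem pf_NT (hRA : TARGET_RA) (hLB : TARGET_LB) (_hLF : TARGET_LF) (hPS : TARGET_PS)
    (hCD : TARGET_CD) (hPL : TARGET_PL) (hPI : TARGET_PI) (hPT : TARGET_PT) (_hRG : TARGET_RG) :
    TARGET_NT := by
  classical
  intro ph hph hR n hT
  obtain ⟨E, hE, hT⟩ := hT
  have hra := hRA ph hR
  obtain ⟨h1, -, -, -, -, -, h7, h8, h9, -, -, h12, -⟩ := hra
  set tl : List ℕ := (List.range n).map (tv ph) with htl
  have htl' : ∀ k < n, tl.getD k 0 = tv ph k := by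
    intro k hk
    rw [htl, List.getD_eq_getElem _ _ (by simpa using hk)]
    simp
  let C : ℕ → ℕ → Prop := fun s x => mX x = n ∧ (wX x).length = LX x ∧
    (∀ k < n, gX x k = tl.getD k 0) ∧ (ph (s + 1) x).2 ≤ n + 1
  let P : ℕ → ℕ → Prop := fun s t => ∀ x < s + 1, C s x → x ∈ E t
  -- every such number enters
  have hin : ∀ s x, C s x → ∃ t, x ∈ E t := by
    rintro s x ⟨c1, c2, c3, c4⟩
    have hpos : (ph (s + 1) x).2 ≤ mX x + 1 := by rw [c1]; exact c4
    have hle : mX x ≤ LX x := Nat.le_add_right _ _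
    obtain ⟨t, ht, h⟩ := hPI ph hR x (s + 1) c2 (by omega) (fun k _ hk => by
      have h2 := rr_le hpos
      rw [c3 k (by omega), htl' k (by omega)])
    have h3 := (h9 (s + 1) t x ht hpos).1
    have h4 : (ph t x).2 = 0 := by
      rcases h with h | h
      · omega
      · exact h
    exact (hE.mem x).1 (AA_of_zero h4)
  have hex : ∀ s, ∃ t, P s t := by
    intro s
    have h2 : ∀ x, ∃ t, C s x → x ∈ E t := fun x => by
      by_cases h : C s x
      · obtain ⟨t, ht⟩ := hin s x h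
        exact ⟨t, fun _ => ht⟩
      · exact ⟨0, fun h' => absurd h' h⟩
    choose g hg using h2
    refine ⟨(Finset.range (s + 1)).sup g, fun x hx hC => ?_⟩
    exact hE.mono _ _ x (Finset.le_sup (f := g) (Finset.mem_range.2 hx)) (hg x hC)
  have hPc : ComputablePred (fun q : ℕ × ℕ => P q.1 q.2) := by
    refine cp_forall_lt (p := fun (q : ℕ × ℕ) x => C q.1 x → x ∈ E q.2) ?_
      (Computable.succ.comp Computable.fst)
    have f1 : Computable (fun q : (ℕ × ℕ) × ℕ => q.1.1) := Computable.fst.comp Computable.fst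
    have f2 : Computable (fun q : (ℕ × ℕ) × ℕ => q.1.2) := Computable.snd.comp Computable.fst
    have f3 : Computable (fun q : (ℕ × ℕ) × ℕ => q.2) := Computable.snd
    refine cp_imp ?_ (cp_mem (hE.comp.comp f2) f3)
    refine cp_and (cp_eq (co_mX f3) (Computable.const n)) (cp_and
      (cp_eq (Primrec.list_length.to_comp.comp (co_wX f3)) (co_LX f3)) (cp_and ?_ ?_))
    · refine cp_forall_lt (p := fun (q : (ℕ × ℕ) × ℕ) k => gX q.2 k = tl.getD k 0) ?_
        (Computable.const n)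
      have g2 : Computable (fun q : ((ℕ × ℕ) × ℕ) × ℕ => q.1.2) :=
        Computable.snd.comp Computable.fst
      have g3 : Computable (fun q : ((ℕ × ℕ) × ℕ) × ℕ => q.2) := Computable.snd
      exact cp_eq (co_gX g2 g3) (co_getD 0 (Computable.const tl) g3)
    · have g : Computable (fun q : (ℕ × ℕ) × ℕ => ph (q.1.1 + 1) q.2) :=
        hph.comp (Computable.succ.comp f1) f3
      exact cp_le (Computable.snd.comp g) (Computable.const (n + 1))
  let p : ℕ → ℕ := fun s => Nat.find (hex s)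
  have hpc : Computable p := co_find hPc hex _
  have hpm : Monotone p := by
    refine monotone_nat_of_le_succ fun s => ?_
    refine Nat.find_min' (hex s) ?_
    intro x hx hC
    refine Nat.find_spec (hex (s + 1)) x (by omega) ?_
    obtain ⟨c1, c2, c3, c4⟩ := hC
    refine ⟨c1, c2, c3, ?_⟩
    exact (h9 (s + 1) (s + 1 + 1) x (by omega) (by omega)).2.trans c4
  obtain ⟨l, hl1, hl2, hl3⟩ := hT p hpc hpm
  obtain ⟨x, hx1, hx2, hx3, hx4⟩ := hCD.2.2.2 (tv ph) l
  rw [hl1] at hx1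
  by_cases hxA : x ∈ AA ph 0
  · obtain ⟨s0, hs0⟩ := hxA
    have hz := zero_of_AA hs0
    obtain ⟨t, ht, htp⟩ := h12 s0 x
    have hle : mX x ≤ LX x := Nat.le_add_right _ _
    obtain ⟨t2, ht1, ht2, ht3⟩ := hPT ph hR x t s0 (mX x + 2) ht (by rw [htp]; simp; omega)
      (Or.inr ⟨by rw [htp], by omega⟩)
    rw [htp] at ht3
    simp only at ht3
    -- the last stage
    have hS : ∃ s, s ≤ s0 ∧ ph s x = ((ph s0 x).1, mX x + 2) := ⟨t2, ht2, ht3⟩
    obtain ⟨s, ⟨hs1, hs2⟩, hs3⟩ : ∃ s, (s ≤ s0 ∧ ph s x = ((ph s0 x).1, mX x + 2)) ∧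
        ∀ s', (s' ≤ s0 ∧ ph s' x = ((ph s0 x).1, mX x + 2)) → s' ≤ s := by
      have hP : ∃ s, s ≤ s0 ∧ (s ≤ s0 ∧ ph s x = ((ph s0 x).1, mX x + 2)) :=
        ⟨t2, ht2, ht2, ht3⟩
      refine ⟨Nat.findGreatest (fun s => s ≤ s0 ∧ ph s x = ((ph s0 x).1, mX x + 2)) s0,
        Nat.findGreatest_spec (P := fun s => s ≤ s0 ∧ ph s x = ((ph s0 x).1, mX x + 2)) ht2
          ⟨ht2, ht3⟩, fun s' hs' => ?_⟩
      exact Nat.le_findGreatest hs'.1 hs'
    have hne : s ≠ s0 := by
      intro h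
      rw [h] at hs2
      have := congrArg Prod.snd hs2
      simp only at this
      omega
    have hlt : s < s0 := lt_of_le_of_ne hs1 hne
    have hne2 : ph (s + 1) x ≠ ph s x := by
      intro h
      have := hs3 (s + 1) ⟨hlt, by rw [h, hs2]⟩
      omega
    have hrun := hR.2 s x
    unfold nxt at hrun
    have hpos : (ph s x).2 = mX x + 2 := by rw [hs2]
    have hlev : (ph s x).1 = (ph s0 x).1 := by rw [hs2]
    by_cases hG : Guard ph s x ∧ MvC ph s x
    · rw [if_pos hG] at hrun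
      by_cases hb : (ph s x).2 = mX x + 2 ∧ ¬ presSt (lX x) s x
      · rw [if_pos hb] at hrun
        have h3 := (h8 (s + 1) s0 x hlt).1
        rw [hrun] at h3
        simp only at h3
        omega
      · rw [if_neg hb] at hrun
        have hpr : presSt (lX x) s x := by
          by_contra h
          exact hb ⟨hpos, h⟩
        rw [hx2] at hpr
        refine hl3 x s hpr ?_
        have hp1 : (ph (s + 1) x).2 = mX x + 1 := by
          rw [hrun]
          simp only
          omega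
        have hxs : x < s + 1 := by
          obtain ⟨-, t', ht', hxt, -⟩ := h7 (s + 1) x (by
            intro h
            rw [h] at hp1
            simp only at hp1
            omega)
          omega
        refine Nat.find_spec (hex s) x hxs ⟨hx1, hx3, fun k hk => ?_, by omega⟩
        rw [htl' k hk]
        exact hx4 k (by omega)
    · rw [if_neg hG] at hrun
      exact hne2 hrun
  · have hxP : x ∈ presSet l := by
      rw [hl2]
      exact hxA
    obtain ⟨s1, hs1⟩ := hPS.2.2.2 l x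
    have hmove : ∀ s, ∃ t, s ≤ t ∧ ph t x ≠ ph s x := by
      intro s
      obtain ⟨t, ht, h⟩ := hPL ph hR x s hx3 (fun h => hxA (AA_of_zero h))
        (fun k hk _ => hx4 k hk) (fun _ => ⟨s1, fun t ht => by
          rw [hx2]
          exact (hs1 t ht).2 hxP⟩)
      exact ⟨t, ht, h⟩
    have hbig : ∀ N : ℕ, ∃ s, N ≤ mu ph x s := by
      intro N
      induction N with
      | zero => exact ⟨0, Nat.zero_le _⟩
      | succ N ih =>
        obtain ⟨s, hs⟩ := ih
        obtain ⟨t, ht, h⟩ := hmove s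
        have := mu_lt hRA hR ht h
        exact ⟨t, by omega⟩
    obtain ⟨s, hs⟩ := hbig (mX x * (LX x + 5) + (LX x + 5))
    have h3 := hLB ph hR s x
    have h4 : (ph s x).1 * (LX x + 5) ≤ mX x * (LX x + 5) := Nat.mul_le_mul_right _ h3
    unfold mu at hs
    omega

end Pool.Agent.H87.VT
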